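import Mathlib

/-!
# Generic thresholds
-/

set_option autoImplicit false

open Set MeasureTheory Metric Filter Topology

namespace Pool.Agent.Helper83.RK

namespace h9

/-- The preimage of a null set under a surjective linear map is a null set. -/
theorem preimage_null {E F : Type*} [NormedAddCommGroup E] [NormedSpace ℝ E]
    [FiniteDimensional ℝ E] [MeasurableSpace E] [BorelSpace E] [NormedAddCommGroup F]
    [NormedSpace ℝ F] [FiniteDimensional ℝ F] [MeasurableSpace F] [BorelSpace F]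
    (μ : Measure E) [μ.IsAddHaarMeasure] (ν : Measure F) [ν.IsAddHaarMeasure] (L : E →ₗ[ℝ] F)
    (hL : Function.Surjective L) {Z : Set F} (hZ : ν Z = 0) : μ (L ⁻¹' Z) = 0 := by
  have : ProperSpace E := FiniteDimensional.proper ℝ E
  obtain ⟨c, _, hc⟩ := L.exists_map_addHaar_eq_smul_addHaar μ ν hL
  have hm : Measurable L := (LinearMap.continuous_of_finiteDimensional L).measurable
  refine measure_mono_null (preimage_mono (subset_toMeasurable ν Z)) ?_
  rw [← Measure.map_apply hm (measurableSet_toMeasurable ν Z), hc, Measure.smul_apply,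
    measure_toMeasurable, hZ, smul_zero]

end h9

/-- Finitely many null sets in coordinate spaces are avoided by a point of `R^J` with distinct
coordinates in `(0, c)`. -/
theorem exists_thresholds {J : Type} [Fintype J] {m : ℕ} {ι : Type} [Finite ι]
    (ψ : ι → Fin m → J) (hψ : ∀ i, Function.Injective (ψ i)) (Z : ι → Set (Fin m → ℝ))
    (hZ : ∀ i, volume (Z i) = 0) {c : ℝ} (hc : 0 < c) :
    ∃ t : J → ℝ, Function.Injective t ∧ (∀ j, 0 < t j ∧ t j < c) ∧ ∀ i, (t ∘ ψ i) ∉ Z i := by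
  classical
  -- the null sets
  have h1 : ∀ i, ∀ᵐ t : J → ℝ, (t ∘ ψ i) ∉ Z i := by
    intro i
    have h2 := h9.preimage_null (volume : Measure (J → ℝ)) (volume : Measure (Fin m → ℝ))
      (LinearMap.funLeft ℝ ℝ (ψ i)) (LinearMap.funLeft_surjective_of_injective ℝ ℝ (ψ i) (hψ i))
      (hZ i)
    rw [ae_iff]
    have h3 : {t : J → ℝ | ¬ (t ∘ ψ i) ∉ Z i} = (LinearMap.funLeft ℝ ℝ (ψ i)) ⁻¹' (Z i) := by
      ext t
      simp only [Set.mem_ofPred_eq, not_not, mem_preimage]
      rfl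
    rw [h3]
    exact h2
  -- the diagonals
  have h2 : ∀ a b : J, a ≠ b → ∀ᵐ t : J → ℝ, t a ≠ t b := by
    intro a b hab
    have hs : Function.Surjective
        ((LinearMap.proj a : (J → ℝ) →ₗ[ℝ] ℝ) - (LinearMap.proj b : (J → ℝ) →ₗ[ℝ] ℝ)) := by
      intro r
      refine ⟨Pi.single a r, ?_⟩
      simp [Pi.single_eq_of_ne (Ne.symm hab)]
    have h3 := h9.preimage_null (volume : Measure (J → ℝ)) (volume : Measure ℝ)
      ((LinearMap.proj a : (J → ℝ) →ₗ[ℝ] ℝ) - (LinearMap.proj b : (J → ℝ) →ₗ[ℝ] ℝ)) hs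
      (Z := {0}) (by simp)
    rw [ae_iff]
    have h4 : {t : J → ℝ | ¬ t a ≠ t b} =
        ((LinearMap.proj a : (J → ℝ) →ₗ[ℝ] ℝ) - (LinearMap.proj b : (J → ℝ) →ₗ[ℝ] ℝ)) ⁻¹' {0} := by
      ext t
      simp only [Set.mem_ofPred_eq, ne_eq, not_not, mem_preimage, mem_singleton_iff,
        LinearMap.sub_apply, LinearMap.proj_apply, sub_eq_zero]
    rw [h4]
    exact h3
  have h3 : ∀ᵐ t : J → ℝ, (∀ i, (t ∘ ψ i) ∉ Z i) ∧ ∀ a b : J, a ≠ b → t a ≠ t b := by
    rw [eventually_and]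
    refine ⟨ae_all_iff.2 h1, ?_⟩
    rw [ae_all_iff]
    intro a
    rw [ae_all_iff]
    intro b
    by_cases hab : a = b
    · exact Eventually.of_forall fun t h => absurd hab h
    · filter_upwards [h2 a b hab] with t ht _
      exact ht
  -- the box
  have h4 : 0 < volume (Set.pi univ fun _ : J => Ioo (0 : ℝ) c) := by
    rw [volume_pi_pi]
    simp only [Real.volume_Ioo, sub_zero]
    rw [pos_iff_ne_zero, Finset.prod_ne_zero_iff]
    exact fun _ _ => (ENNReal.ofReal_pos.2 hc).ne'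
  obtain ⟨t, ht1, ht2, ht3⟩ : ∃ t ∈ Set.pi univ fun _ : J => Ioo (0 : ℝ) c,
      (∀ i, (t ∘ ψ i) ∉ Z i) ∧ ∀ a b : J, a ≠ b → t a ≠ t b := by
    by_contra hcon
    push Not at hcon
    rw [ae_iff] at h3
    refine absurd h4 (not_lt.2 (le_of_le_of_eq (measure_mono ?_) h3))
    intro t ht
    change ¬ _
    rintro ⟨h5, h6⟩
    obtain ⟨a, b, hab, h7⟩ := hcon t ht h5
    exact h6 a b hab h7
  refine ⟨t, fun a b hab => ?_, fun j => ht1 j (mem_univ j), ht2⟩
  by_contra h
  exact ht3 a b h hab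

end Pool.Agent.Helper83.RK
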